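import Pool.Agent.Helper64.IG.Goals

/-! Packet PE of MP_d01c92 (helper64): the contraction is polynomial in the decorations. -/

universe u

namespace Pool.Agent.Helper64.IG.PkPE

open Pool.Agent.Helper64.IG MvPolynomial

theorem aux (K : Type u) [Field K] (w : ℕ) (σ : Tr Unit) :
    ∀ (α : Fin (2 ^ w)) (b : List Bool),
    ∃ P : MvPolynomial (ℕ × Var w) K, ∀ ν : ℕ → Var w → K,
      MvPolynomial.eval (fun q => ν q.1 q.2) P = ev w (σ.deco ν) α b := by
  induction σ with
  | leaf k x =>
    intro α b
    rcases b with _ | ⟨e, _ | ⟨e', b'⟩⟩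
    · exact ⟨0, fun ν => by simp [Tr.deco, ev]⟩
    · exact ⟨X (0, (α, zi w, zi w, e)), fun ν => by simp [Tr.deco, ev]⟩
    · exact ⟨0, fun ν => by simp [Tr.deco, ev]⟩
  | node k x a c iha ihc =>
    intro α b
    choose Pa hPa using fun β bs => iha β bs
    choose Pc hPc using fun γ bs => ihc γ bs
    refine ⟨∑ β, ∑ γ, X (0, (α, β, γ, false)) *
      rename (fun q : ℕ × Var w => (1 + q.1, q.2)) (Pa β (b.take (a.deco (fun _ => ())).leaves)) *
      rename (fun q : ℕ × Var w => (1 + a.size + q.1, q.2))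
        (Pc γ (b.drop (a.deco (fun _ => ())).leaves)), ?_⟩
    intro ν
    have hleaves2 : ∀ (t : Tr Unit) (Y : Type u) (φ : ℕ → Y) (ψ : ℕ → Unit),
        (t.deco φ).leaves = (t.deco ψ).leaves := by
      intro t
      induction t with
      | leaf k x => intro Y φ ψ; rfl
      | node k x a b iha ihb =>
        intro Y φ ψ
        simp only [Tr.deco, Tr.leaves]
        rw [iha _ _ (fun n => ψ (1 + n)), ihb _ _ (fun n => ψ (1 + a.size + n))]
    simp only [Tr.deco, ev, map_sum, map_mul, eval_X, eval_rename]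
    refine Finset.sum_congr rfl fun β _ => Finset.sum_congr rfl fun γ _ => ?_
    have e1 : (a.deco fun n => ν (1 + n)).leaves = (a.deco (fun _ => ())).leaves :=
      hleaves2 a _ _ _
    rw [e1]
    have h1 := hPa β (b.take (a.deco (fun _ => ())).leaves) (fun n => ν (1 + n))
    have h2 := hPc γ (b.drop (a.deco (fun _ => ())).leaves) (fun n => ν (1 + a.size + n))
    rw [← h1, ← h2]
    rfl

theorem pe : G_PE.{u} := by
  classical
  intro K _ w σ α b
  obtain ⟨P, hP⟩ := aux K w σ α b
  refine ⟨bind₁ (fun q : ℕ × Var w => if h : q.1 < σ.size then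
    (X ((⟨q.1, h⟩ : Fin σ.size), q.2) : MvPolynomial (Fin σ.size × Var w) K) else 0) P, ?_⟩
  intro V
  rw [← hP (dat V)]
  have key : ∀ Q : MvPolynomial (ℕ × Var w) K,
      eval V (bind₁ (fun q : ℕ × Var w => if h : q.1 < σ.size then
        (X ((⟨q.1, h⟩ : Fin σ.size), q.2) : MvPolynomial (Fin σ.size × Var w) K) else 0) Q) =
      eval (fun q : ℕ × Var w => dat V q.1 q.2) Q := by
    intro Q
    induction Q using MvPolynomial.induction_on with
    | C a => simp
    | add p q hp hq => rw [map_add, map_add, map_add, hp, hq]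
    | mul_X p q hp =>
      rw [map_mul, map_mul, map_mul, hp, bind₁_X_right, eval_X]
      congr 1
      unfold dat
      by_cases h : q.1 < σ.size
      · simp [h]
      · simp [h]
  exact key P

end Pool.Agent.Helper64.IG.PkPE
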